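import Pool.Agent.H97.PRP.Targets
import Pool.Agent.H97.PRK.Last

/-!
# MP_e37c09_lc: small sets of points of a club, second list. The theorem from its parts
-/

open Ordinal Cardinal Order Set
open scoped ZFSet

universe u

namespace Pool.Agent.H97.PRP

open _root_.HD HD.PRK HD.PRP Pool.Agent.H97.PRK

theorem suc_mono {δ κ : Ordinal.{u}} {C C' : Set Ordinal.{u}} (h : C ⊆ C') (hC : Suc δ κ C') :
    Suc δ κ C := fun x hx => hC x (sml_mono h hx)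

theorem bpl_mono {δ κ : Ordinal.{u}} {C C' : Set Ordinal.{u}} (h : C ⊆ C') (hC : Bpl δ κ C') :
    Bpl δ κ C := fun x hx => hC x (sml_mono h hx)

/-- The clause on the club set `C`. -/
theorem asm (hCPB : T_CPB.{u}) (hCPA : T_CPA.{u}) (hCPH : T_CPH.{u}) (hSUB : T_SUB.{u})
    (hBPL : T_BPL.{u}) (δ : Ordinal.{u}) (hδ : Extendible δ) (K : Cardinal.{u})
    (hK : K.IsRegular) (hδK : δ < K.ord) : ∃ C : Set Ordinal.{u}, Clb K.ord C ∧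
      (∀ x, Sml δ K.ord C x → ∀ X, X ⊆ K.ord.toZFSet → NF.ODp x X →
        (∃ D, OD D ∧ Thin δ D ∧ Cap x X D) ∧
        ((∀ y ∈ V_ δ, HOD y) → ∃ E, HOD E ∧ HD.PRP.Fun E ∧ Cap x X E)) ∧
      (¬ CaseA δ → (∀ a ∈ C, a < K.ord → InacHOD a) ∧ Suc δ K.ord C ∧ Bpl δ K.ord C) := by
  obtain ⟨C0, hC0, hCi, -⟩ := (last δ hδ).1 K hK hδK
  obtain ⟨D, hD, -, -, hD0⟩ : ∃ D : Cardinal.{u}, δ = D.ord ∧ D.IsRegular ∧
      D.IsStrongLimit ∧ ℵ₀ < D := by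
    obtain ⟨η, -, θ, j, h⟩ := HD.All.xa δ hδ 0
    exact HD.All.xb δ η θ j h
  have hK0 : ℵ₀ < K := by
    rw [hD] at hδK
    exact hD0.trans (Cardinal.ord_lt_ord.1 hδK)
  by_cases hA : CaseA δ
  · refine ⟨C0, hC0, fun x hx X hX hp => ?_, fun h => absurd hA h⟩
    have hxK : x ⊆ K.ord.toZFSet := by
      intro z hz
      obtain ⟨a, h1, -, -, rfl⟩ := hx.mem z hz
      exact toZFSet_mem_toZFSet_iff.2 h1
    obtain ⟨D', h1, h2, h3⟩ := hCPA δ hδ hA K.ord x hxK hx.few X hX hp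
    exact ⟨⟨D', h1, h2, h3⟩, fun hV => hCPH δ hδ hV K.ord x X D' hxK h1 h2 h3⟩
  · obtain ⟨C1, hC1, h1⟩ := hCPB δ hδ hA K hK hδK
    obtain ⟨C2, hC2, h2⟩ := hSUB δ hδ hA K hK hδK
    obtain ⟨C3, hC3, h3⟩ := hBPL δ K hK hK0 C2 hC2 h2
    refine ⟨C0 ∩ (C1 ∩ (C2 ∩ C3)), Pool.Agent.H54.CL.clb_inter hK0 hK hC0
      (Pool.Agent.H54.CL.clb_inter hK0 hK hC1 (Pool.Agent.H54.CL.clb_inter hK0 hK hC2 hC3)),
      fun x hx X hX hp => ?_, fun _ => ⟨fun a ha haK => hCi hA a ha.1 haK,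
        suc_mono (fun a ha => ha.2.2.1) h2, bpl_mono (fun a ha => ha.2.2.2) h3⟩⟩
    have hxK : x ⊆ K.ord.toZFSet := by
      intro z hz
      obtain ⟨a, h1, -, -, rfl⟩ := hx.mem z hz
      exact toZFSet_mem_toZFSet_iff.2 h1
    obtain ⟨D', h4, h5, h6⟩ := h1 x (sml_mono (fun a ha => ha.2.1) hx) X hX hp
    exact ⟨⟨D', h4, h5, h6⟩, fun hV => hCPH δ hδ hV K.ord x X D' hxK h4 h5 h6⟩

end Pool.Agent.H97.PRP
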