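import Pool.Agent.H97.PRP.Targets2
import Pool.Agent.H97.PRP.Asm

/-!
# MP_e37c09_lc: small sets of points of a club. The clause on one club set, from its parts
-/

open Ordinal Cardinal Order Set
open scoped ZFSet

universe u

namespace Pool.Agent.H97.PRP

open _root_.HD HD.PRK HD.PRP Pool.Agent.H97.PRK

/-- The clause on the club set `C`. -/
theorem asm2 (hCPB : T_CPB.{u}) (hCPA : T_CPA.{u}) (hCPH : T_CPH.{u}) (hSUB : T_SUB.{u})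
    (hBPL : T_BPL.{u}) (hCPB2 : T_CPB2.{u}) (hCPA2 : T_CPA2.{u}) (hCPH2 : T_CPH2.{u})
    (δ : Ordinal.{u}) (hδ : Extendible δ) (K : Cardinal.{u}) (hK : K.IsRegular)
    (hδK : δ < K.ord) : ∃ C : Set Ordinal.{u}, Clb K.ord C ∧
      (∀ x, Sml δ K.ord C x → ∀ X, X ⊆ K.ord.toZFSet → NF.ODp x X →
        (∃ D, OD D ∧ Thin δ D ∧ Cap x X D) ∧
        ((∀ y ∈ V_ δ, HOD y) → ∃ E, HOD E ∧ HD.PRP.Fun E ∧ Cap x X E) ∧
        (ClK δ K → (∃ D, OD D ∧ Thin δ D ∧ CapA x X D) ∧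
          ((∀ y ∈ V_ δ, HOD y) → ∃ E, OD E ∧ HD.PRP.Fun E ∧ CapA x X E))) ∧
      (¬ CaseA δ → (∀ a ∈ C, a < K.ord → InacHOD a) ∧ Suc δ K.ord C ∧ Bpl δ K.ord C) := by
  obtain ⟨C0, hC0, h0, h1⟩ := asm hCPB hCPA hCPH hSUB hBPL δ hδ K hK hδK
  obtain ⟨D, hD, -, -, hD0⟩ : ∃ D : Cardinal.{u}, δ = D.ord ∧ D.IsRegular ∧
      D.IsStrongLimit ∧ ℵ₀ < D := by
    obtain ⟨η, -, θ, j, h⟩ := HD.All.xa δ hδ 0
    exact HD.All.xb δ η θ j h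
  have hK0 : ℵ₀ < K := by
    rw [hD] at hδK
    exact hD0.trans (Cardinal.ord_lt_ord.1 hδK)
  have hsub : ∀ (C : Set Ordinal.{u}) x, Sml δ K.ord C x → x ⊆ K.ord.toZFSet := by
    intro C x hx z hz
    obtain ⟨a, h1, -, -, rfl⟩ := hx.mem z hz
    exact toZFSet_mem_toZFSet_iff.2 h1
  -- one club for the third part
  obtain ⟨C2, hC2, h2⟩ : ∃ C : Set Ordinal.{u}, Clb K.ord C ∧ ∀ x, Sml δ K.ord C x → ∀ X,
      X ⊆ K.ord.toZFSet → NF.ODp x X → ClK δ K → ∃ D, OD D ∧ Thin δ D ∧ CapA x X D := by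
    by_cases hA : CaseA δ
    · exact ⟨univ, clb_univ hK.aleph0_le, fun x hx X hX hp _ =>
        hCPA2 δ hδ hA K.ord x (hsub _ x hx) hx.few X hX hp⟩
    · by_cases hcl : ClK δ K
      · obtain ⟨C, hC, h⟩ := hCPB2 δ hδ hA K hK hδK hcl
        exact ⟨C, hC, fun x hx X hX hp _ => h x hx X hX hp⟩
      · exact ⟨univ, clb_univ hK.aleph0_le, fun x hx X hX hp h => absurd h hcl⟩
  refine ⟨C0 ∩ C2, Pool.Agent.H54.CL.clb_inter hK0 hK hC0 hC2, fun x hx X hX hp => ?_,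
    fun hA => ?_⟩
  · obtain ⟨h3, h4⟩ := h0 x (sml_mono inter_subset_left hx) X hX hp
    refine ⟨h3, h4, fun hcl => ?_⟩
    obtain ⟨D', h5, h6, h7⟩ := h2 x (sml_mono inter_subset_right hx) X hX hp hcl
    exact ⟨⟨D', h5, h6, h7⟩, fun hV =>
      hCPH2 δ hδ hV K.ord x X D' (hsub _ x hx) hx.few h5 h6 h7⟩
  · obtain ⟨h3, h4, h5⟩ := h1 hA
    exact ⟨fun a ha haK => h3 a ha.1 haK, suc_mono inter_subset_left h4,
      bpl_mono inter_subset_left h5⟩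

end Pool.Agent.H97.PRP
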