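import Pool.Agent.H97.PRP.Targets
import Pool.Agent.H19.PRK.NBF

/-!
# MP_e37c09_lc: finite sets of ordinals are ordinal definable
-/

open Ordinal Cardinal Order Set
open scoped ZFSet

universe u

namespace Pool.Agent.H97.PRP

open _root_.HD HD.PRK HD.PRP

theorem pf_FO : T_FO.{u} := by
  intro β s hs hfin
  refine OD.of_mem (Pool.Agent.H19.PRK.NBF_fin _ hfin) fun v => ?_
  constructor
  · rintro ⟨b, hb, h⟩
    rw [h]
    exact hb
  · intro h
    obtain ⟨b, -, hb⟩ := mem_toZFSet_iff.1 (hs h)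
    exact ⟨b, by rw [Set.mem_ofPred_eq, hb]; exact h, hb.symm⟩

end Pool.Agent.H97.PRP
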