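import Pool.Agent.H97.PRP.Asm2
import Pool.Agent.H95.PRP.FC
import Pool.Agent.H95.PRP.LC
import Pool.Agent.H95.PRP.FS
import Pool.Agent.H91.PRP.DDO
import Pool.Agent.H40.PRP.DDT
import Pool.Agent.H96.PRP.DDC
import Pool.Agent.H64.PRP.PC
import Pool.Agent.H64.PRP.CPB
import Pool.Agent.H12.PRP.CPA
import Pool.Agent.H35.PRP.CPH
import Pool.Agent.H54.PRP.RRD
import Pool.Agent.H43.PRP.RRF
import Pool.Agent.H43.PRP.ENU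
import Pool.Agent.H30.PRP.CLU
import Pool.Agent.H94.PRP.PF
import Pool.Agent.H42.PRP.SUA
import Pool.Agent.H57.PRP.SUB
import Pool.Agent.H10.PRP.BPL
import Pool.Agent.H55.PRP.FSL
import Pool.Agent.H51.PRP.LTS
import Pool.Agent.H19.PRP.SHR
import Pool.Agent.H4.PRP.BOD
import Pool.Agent.H19.PRP.TWS
import Pool.Agent.H25.PRP.ES
import Pool.Agent.H25.PRP.VDO
import Pool.Agent.H38.PRP.VDT
import Pool.Agent.H57.PRP.VDC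
import Pool.Agent.H64.PRP.PC2
import Pool.Agent.H37.PRP.CPB2
import Pool.Agent.H5.PRP.CPA2
import Pool.Agent.H94.PRP.CPH2
import Pool.Agent.H97.PRP.FO

/-!
# MP_e37c09_lc: small sets of points of a club. All parts of the second and third list
-/

open Ordinal Cardinal Order Set
open scoped ZFSet

universe u

namespace Pool.Agent.H97.PRP

open _root_.HD HD.PRK HD.PRP Pool.Agent.H97.PRK

theorem eqa : T_EQA.{u} := fun δ hδ hA κ x hx hf =>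
  (Pool.Agent.H75.PRK.pf_EQB δ hδ).1 hA κ x hx hf

theorem p_FC : HD.PRP.T_FC.{u} := Pool.Agent.H95.PRP.pf_FC
theorem p_FO : T_FO.{u} := pf_FO
theorem p_LC : T_LC.{u} := Pool.Agent.H95.PRP.pf_LC
theorem p_FS : T_FS.{u} := Pool.Agent.H95.PRP.pf_FS
theorem p_DDO : T_DDO.{u} := Pool.Agent.H91.PRP.pf_DDO a_LOP p_FS
theorem p_DDT : T_DDT.{u} := Pool.Agent.H40.PRP.pf_DDT a_TWO a_L3B p_FS
theorem p_DDC : T_DDC.{u} := Pool.Agent.H96.PRP.pf_DDC a_NU2 a_L3A a_TWO p_FS p_FC p_FO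
theorem p_PC : HD.PRP.T_PC.{u} := Pool.Agent.H64.PRP.pf_PC
theorem p_CPB : T_CPB.{u} := Pool.Agent.H64.PRP.pf_CPB a_CI p_LC p_PC p_DDO p_DDT p_DDC
theorem p_CPA : T_CPA.{u} := Pool.Agent.H12.PRP.pf_CPA eqa
theorem p_CPH : T_CPH.{u} := Pool.Agent.H35.PRP.pf_CPH p_FO
theorem p_RRD : T_RRD.{u} := Pool.Agent.H54.PRP.pf_RRD
theorem p_RRF : T_RRF.{u} := Pool.Agent.H43.PRP.pf_RRF
theorem p_ENU : T_ENU.{u} := Pool.Agent.H43.PRP.pf_ENU p_FC p_RRD p_RRF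
theorem p_CLU : T_CLU.{u} := Pool.Agent.H30.PRP.pf_CLU a_CI p_FC
theorem p_PF : T_PF.{u} := Pool.Agent.H94.PRP.pf_PF
theorem p_SUA : T_SUA.{u} :=
  Pool.Agent.H42.PRP.pf_SUA a_CI p_LC p_PF p_DDO p_DDT p_DDC p_ENU p_CLU
theorem p_SUB : T_SUB.{u} := Pool.Agent.H57.PRP.pf_SUB p_SUA
theorem p_BPL : T_BPL.{u} := Pool.Agent.H10.PRP.pf_BPL
theorem p_FSL : T_FSL.{u} := Pool.Agent.H55.PRP.pf_FSL
theorem p_LTS : T_LTS.{u} := Pool.Agent.H51.PRP.pf_LTS a_LPX a_LFW p_FSL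
theorem p_SHR : T_SHR.{u} := Pool.Agent.H19.PRP.pf_SHR
theorem p_BOD : T_BOD.{u} := Pool.Agent.H4.PRP.pf_BOD a_LOC p_FS
theorem p_TWS : T_TWS.{u} := Pool.Agent.H19.PRP.pf_TWS p_LTS a_AL a_NBA a_CNA p_SHR p_BOD
theorem p_ES : T_ES.{u} := Pool.Agent.H25.PRP.pf_ES
theorem p_VDO : T_VDO.{u} := Pool.Agent.H25.PRP.pf_VDO a_LOP a_LFW p_FS
theorem p_VDT : T_VDT.{u} := Pool.Agent.H38.PRP.pf_VDT a_L3B
theorem p_VDC : T_VDC.{u} := Pool.Agent.H57.PRP.pf_VDC a_CI a_NU2 a_L3A a_TWO p_TWS p_FS p_ES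
theorem p_PC2 : T_PC2.{u} := Pool.Agent.H64.PRP.pf_PC2
theorem p_CPB2 : T_CPB2.{u} := Pool.Agent.H37.PRP.pf_CPB2 a_CI p_LC p_PC2 p_VDO p_VDT p_VDC
theorem p_CPA2 : T_CPA2.{u} := Pool.Agent.H5.PRP.pf_CPA2 eqa
theorem p_CPH2 : T_CPH2.{u} := Pool.Agent.H94.PRP.pf_CPH2

/-- The clause on one club set `C`. -/
theorem last2 (δ : Ordinal.{u}) (hδ : Extendible δ) (K : Cardinal.{u}) (hK : K.IsRegular)
    (hδK : δ < K.ord) : ∃ C : Set Ordinal.{u}, Clb K.ord C ∧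
      (∀ x, Sml δ K.ord C x → ∀ X, X ⊆ K.ord.toZFSet → NF.ODp x X →
        (∃ D, OD D ∧ Thin δ D ∧ Cap x X D) ∧
        ((∀ y ∈ V_ δ, HOD y) → ∃ E, HOD E ∧ HD.PRP.Fun E ∧ Cap x X E) ∧
        (ClK δ K → (∃ D, OD D ∧ Thin δ D ∧ CapA x X D) ∧
          ((∀ y ∈ V_ δ, HOD y) → ∃ E, OD E ∧ HD.PRP.Fun E ∧ CapA x X E))) ∧
      (¬ CaseA δ → (∀ a ∈ C, a < K.ord → InacHOD a) ∧ Suc δ K.ord C ∧ Bpl δ K.ord C) :=
  asm2 p_CPB p_CPA p_CPH p_SUB p_BPL p_CPB2 p_CPA2 p_CPH2 δ hδ K hK hδK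

end Pool.Agent.H97.PRP
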