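import Pool.Agent.H97.PRK.Targets

/-!
# MP_e37c09_lc: small sets of points of a club, second list. Definitions and targets
-/

open Ordinal Cardinal Order Set
open scoped ZFSet

universe u

namespace HD.PRP

open HD.PRK

/-! ## Statement-level definitions -/

/-- For each `w` there are fewer than `δ` sets `Y` with `(w, Y) ∈ D`. -/
def Thin (δ : Ordinal.{u}) (D : ZFSet.{u}) : Prop := ∀ w : ZFSet.{u},
  ∃ ν : Cardinal.{u}, ν.ord < δ ∧ ∃ e : Ordinal.{u} → ZFSet.{u},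
    ∀ Y, ZFSet.pair w Y ∈ D → ∃ i < ν.ord, Y = e i

/-- For each `w` there is at most one set `Y` with `(w, Y) ∈ D`. -/
def Fun (D : ZFSet.{u}) : Prop := ∀ w Y Y' : ZFSet.{u}, ZFSet.pair w Y ∈ D →
  ZFSet.pair w Y' ∈ D → Y = Y'

/-- `(x ∩ (a + 1), X ∩ a) ∈ D` for each `a ∈ x` such that `x ∩ a` is finite. -/
def Cap (x X D : ZFSet.{u}) : Prop := ∀ a : Ordinal.{u}, a.toZFSet ∈ x →
  {b : Ordinal.{u} | b.toZFSet ∈ x ∧ b < a}.Finite →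
    ZFSet.pair (x ∩ (succ a).toZFSet) (X ∩ a.toZFSet) ∈ D

/-- Let `x` be a small set of points of `C` such that `x` is an unbounded subset of `β` and all
sets `x ∩ a`, `a ∈ x`, are finite. For each sequence `f` of length `β` of subsets of `β` in HOD
which is definable from `x` and ordinals there is a function `G` in HOD such that all values of
`f` are values of `G` at ordinals less than `β`. -/
def Suc (δ κ : Ordinal.{u}) (C : Set Ordinal.{u}) : Prop := ∀ x, Sml δ κ C x → ∀ β < κ,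
  x ⊆ β.toZFSet → (∀ b < β, ∃ a : Ordinal.{u}, b < a ∧ a.toZFSet ∈ x) →
  (∀ a : Ordinal.{u}, a.toZFSet ∈ x → {b : Ordinal.{u} | b.toZFSet ∈ x ∧ b < a}.Finite) →
  ∀ f, NF.ODp x f → Fun f →
    (∀ ξ < β, ∀ w, ZFSet.pair ξ.toZFSet w ∈ f → HOD w ∧ w ⊆ β.toZFSet) →
    ∃ G, HOD G ∧ Fun G ∧ ∀ ξ < β, ∀ w, ZFSet.pair ξ.toZFSet w ∈ f →
      ∃ η < β, ZFSet.pair η.toZFSet w ∈ G

/-- In this situation let `lam` be the successor cardinal of `β` in HOD. Each function `f` from `β`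
to `lam` which is definable from `x` and ordinals is bounded. -/
def Bpl (δ κ : Ordinal.{u}) (C : Set Ordinal.{u}) : Prop := ∀ x, Sml δ κ C x → ∀ β < κ,
  x ⊆ β.toZFSet → (∀ b < β, ∃ a : Ordinal.{u}, b < a ∧ a.toZFSet ∈ x) →
  (∀ a : Ordinal.{u}, a.toZFSet ∈ x → {b : Ordinal.{u} | b.toZFSet ∈ x ∧ b < a}.Finite) →
  ∀ lam, β < lam → (∀ ν, β < ν → ν < lam → OntoHOD β ν) → ¬ OntoHOD β lam →
    ∀ f, NF.ODp x f → Fun f → ∃ ν < lam, ∀ ξ < β, ∀ c < lam,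
      ZFSet.pair ξ.toZFSet c.toZFSet ∈ f → c < ν

/-! ## Codes of finite sets -/

/-- FC. Codes of finite sets of ordinals. -/
def T_FC : Prop := ∃ cs : Ordinal.{u} → ZFSet.{u},
  (DZ fun v => (v 0).IsOrdinal ∧ v 1 = cs (v 0).rank) ∧
  ∀ K : Cardinal.{u}, K.IsRegular → ℵ₀ < K → ∃ C, Clb K.ord C ∧ ∀ β ∈ C, β < K.ord →
    ∀ s : ZFSet.{u}, s ⊆ β.toZFSet → {a : Ordinal.{u} | a.toZFSet ∈ s}.Finite → ∃ σ < β, cs σ = s

/-- FO. Finite sets of ordinals are ordinal definable. -/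
def T_FO : Prop := ∀ (β : Ordinal.{u}) (s : ZFSet.{u}), s ⊆ β.toZFSet →
  {a : Ordinal.{u} | a.toZFSet ∈ s}.Finite → OD s

/-! ## Least counterexamples -/

/-- LC. The set of the least counterexamples is ordinal definable. -/
def T_LC : Prop := ∀ P : ZFSet.{u} → ZFSet.{u} → Prop, (DZ fun v => P (v 0) (v 1)) →
  ∀ κ : Ordinal.{u}, ∃ G, OD G ∧ ∀ x, x ⊆ κ.toZFSet → ∀ X, X ⊆ κ.toZFSet → NF.ODp x X → P x X →
    NF.ODp x (os κ (sec G x)) ∧ P x (os κ (sec G x))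

/-! ## The capturing sets -/

/-- the family of the sections of `G` at `s ∪ y`, cut at `min y` -/
noncomputable def Fs (κ : Ordinal.{u}) (G s : ZFSet.{u}) : ZFSet.{u} :=
  ZFSet.sep (fun z => ∃ y a, z = ZFSet.pair y a ∧ (∀ b ∈ y, a ∈ b) ∧ ZFSet.pair (s ∪ y) a ∈ G)
    (ZFSet.prod (ZFSet.powerset κ.toZFSet) κ.toZFSet)

/-- FS. Definability. -/
def T_FS : Prop := ∀ (κ : Ordinal.{u}) (G : ZFSet.{u}), OD G →
  DZ fun v => v 0 = Fs κ G (v 1)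

/-- `Y` is a possible value at `w` -/
def Po (μ κ : Ordinal.{u}) (G w Y : ZFSet.{u}) : Prop :=
  OD w ∧ ∃ a < κ, IsSuccLimit a ∧ a.toZFSet = (ZFSet.sUnion w : ZFSet.{u}) ∧ Y ⊆ a.toZFSet ∧
    ∀ n < a, PosX μ κ fun y => Agr (Fs κ G (w ∩ a.toZFSet)) y n {b | b.toZFSet ∈ Y}

/-- the set of the pairs `(w, Y)` such that `Y` is a possible value at `w` -/
noncomputable def DD (μ κ : Ordinal.{u}) (G : ZFSet.{u}) : ZFSet.{u} :=
  ZFSet.sep (fun z => ∃ w Y, z = ZFSet.pair w Y ∧ Po μ κ G w Y)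
    (ZFSet.prod (ZFSet.powerset κ.toZFSet) (ZFSet.powerset κ.toZFSet))

/-- DDO. Definability. -/
def T_DDO : Prop := ∀ (μ κ : Ordinal.{u}) (G : ZFSet.{u}), OD G → OD (DD μ κ G)

/-- DDT. The sections are small. -/
def T_DDT : Prop := ∀ δ : Ordinal.{u}, Extendible δ → ¬ CaseA δ → ∀ K : Cardinal.{u},
  K.IsRegular → δ < K.ord → ∀ μ < δ, ω ≤ μ → ∀ G, OD G → Thin δ (DD μ K.ord G)

/-- DDC. Capturing. -/
def T_DDC : Prop := ∀ δ : Ordinal.{u}, Extendible δ → ¬ CaseA δ → ∀ K : Cardinal.{u},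
  K.IsRegular → δ < K.ord → ∀ μ < δ, ω ≤ μ → ∀ G, OD G → ∃ C, Clb K.ord C ∧
    ∀ x, SmS μ K.ord C x → ∀ a : Ordinal.{u}, a.toZFSet ∈ x →
      {b : Ordinal.{u} | b.toZFSet ∈ x ∧ b < a}.Finite →
        ZFSet.pair (x ∩ (succ a).toZFSet) (os a (sec G x)) ∈ DD μ K.ord G

/-! ## Capturing subsets of `κ` -/

/-- PC. Definability. -/
def T_PC : Prop := ∀ δ : Ordinal.{u}, DZ fun v => ¬ ∃ D, OD D ∧ Thin δ D ∧ Cap (v 0) (v 1) D

/-- CPB. The second case. -/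
def T_CPB : Prop := ∀ δ : Ordinal.{u}, Extendible δ → ¬ CaseA δ → ∀ K : Cardinal.{u},
  K.IsRegular → δ < K.ord → ∃ C, Clb K.ord C ∧ ∀ x, Sml δ K.ord C x → ∀ X,
    X ⊆ K.ord.toZFSet → NF.ODp x X → ∃ D, OD D ∧ Thin δ D ∧ Cap x X D

/-- EQA. Covering in the first case (proved in `H75/PRK/EQB.lean`). -/
def T_EQA : Prop := ∀ δ : Ordinal.{u}, Extendible δ → CaseA δ → ∀ (κ : Ordinal.{u})
  (x : ZFSet.{u}), x ⊆ κ.toZFSet → (∃ τ < δ, ∃ g : Ordinal.{u} → Ordinal.{u},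
    ∀ a : Ordinal.{u}, a.toZFSet ∈ x → ∃ i < τ, g i = a) →
      ∃ Z, OD Z ∧ x ∈ Z ∧ ∃ ν : Cardinal.{u}, ν.ord < δ ∧ NF.Sz ν Z

/-- CPA. The first case. -/
def T_CPA : Prop := ∀ δ : Ordinal.{u}, Extendible δ → CaseA δ → ∀ (κ : Ordinal.{u})
  (x : ZFSet.{u}), x ⊆ κ.toZFSet → (∃ τ < δ, ∃ g : Ordinal.{u} → Ordinal.{u},
    ∀ a : Ordinal.{u}, a.toZFSet ∈ x → ∃ i < τ, g i = a) → ∀ X, X ⊆ κ.toZFSet → NF.ODp x X →
      ∃ D, OD D ∧ Thin δ D ∧ Cap x X D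

/-- CPH. One value if `V_ δ` is contained in HOD. -/
def T_CPH : Prop := ∀ δ : Ordinal.{u}, Extendible δ → (∀ y ∈ V_ δ, HOD y) → ∀ (κ : Ordinal.{u})
  (x X D : ZFSet.{u}), x ⊆ κ.toZFSet → OD D → Thin δ D → Cap x X D →
    ∃ E, HOD E ∧ Fun E ∧ Cap x X E

/-! ## Sequences of subsets of `β` in HOD -/

/-- below `a` the set `W` is the section at `ξ` of one of the possible values at `s ∪ {a}` -/
def Tt (t : Ordinal.{u} → Ordinal.{u} → Ordinal.{u}) (Q s W : ZFSet.{u}) (ξ a : Ordinal.{u}) :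
    Prop := ∃ Y, ZFSet.pair (insert a.toZFSet s) Y ∈ Q ∧
  ∀ m < a, m.toZFSet ∈ W ↔ (t ξ m).toZFSet ∈ Y

/-- `W` is a subset of `κ` in HOD such that this holds for a positive set of ordinals `a` -/
def RR (δ κ : Ordinal.{u}) (t : Ordinal.{u} → Ordinal.{u} → Ordinal.{u}) (Q s : ZFSet.{u})
    (ξ : Ordinal.{u}) (W : ZFSet.{u}) : Prop :=
  HOD W ∧ W ⊆ κ.toZFSet ∧ ∃ M < δ, Pos M κ {a | Tt t Q s W ξ a}

/-- RRD. Definability. -/
def T_RRD : Prop := ∀ (δ κ : Ordinal.{u}) (t : Ordinal.{u} → Ordinal.{u} → Ordinal.{u})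
  (Q : ZFSet.{u}), (DO fun w => w 2 = t (w 0) (w 1)) → OD Q →
    DZ fun v => (v 1).IsOrdinal ∧ RR δ κ t Q (v 0) (v 1).rank (v 2)

/-- RRF. There are few such sets. -/
def T_RRF : Prop := ∀ δ : Ordinal.{u}, Extendible δ → ¬ CaseA δ → ∀ K : Cardinal.{u},
  K.IsRegular → δ < K.ord → ∀ (t : Ordinal.{u} → Ordinal.{u} → Ordinal.{u}) (Q : ZFSet.{u}),
    (DO fun w => w 2 = t (w 0) (w 1)) → OD Q → Thin δ Q → ∀ (s : ZFSet.{u}) (ξ : Ordinal.{u}),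
      OD s → ∃ ν < K, ∃ e : Ordinal.{u} → ZFSet.{u}, ∀ W, RR δ K.ord t Q s ξ W →
        ∃ i < ν.ord, W = e i

/-- ENU. An enumeration in HOD. -/
def T_ENU : Prop := ∀ δ : Ordinal.{u}, Extendible δ → ¬ CaseA δ → ∀ K : Cardinal.{u},
  K.IsRegular → δ < K.ord → ∀ (t : Ordinal.{u} → Ordinal.{u} → Ordinal.{u}) (Q : ZFSet.{u}),
    (DO fun w => w 2 = t (w 0) (w 1)) → (∀ a b a' b', t a b = t a' b' → a = a' ∧ b = b') →
    (∀ a < K.ord, ∀ b < K.ord, t a b < K.ord) → OD Q → Thin δ Q →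
    ∃ C, Clb K.ord C ∧ ∀ β ∈ C, β < K.ord → ∃ G, HOD G ∧ Fun G ∧ ∀ ξ < β, ∀ s : ZFSet.{u},
      s ⊆ β.toZFSet → {a : Ordinal.{u} | a.toZFSet ∈ s}.Finite → ∀ W, RR δ K.ord t Q s ξ W →
        ∃ η < β, ZFSet.pair η.toZFSet (W ∩ β.toZFSet) ∈ G

/-- CLU. The club set. -/
def T_CLU : Prop := ∀ (D K : Cardinal.{u}), ℵ₀ < D → K.IsRegular → D < K →
  ∀ (t : Ordinal.{u} → Ordinal.{u} → Ordinal.{u}) (Q : ZFSet.{u}) (e : Ordinal.{u} → ZFSet.{u}),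
    (∀ z, HOD (e z) ∧ e z ⊆ K.ord.toZFSet) → ∃ C, Clb K.ord C ∧ ∀ a ∈ C, a < K.ord →
      a.cof.ord < D.ord → ∀ z < a, ∀ ξ < a, ∀ s : ZFSet.{u}, s ⊆ a.toZFSet →
        {b : Ordinal.{u} | b.toZFSet ∈ s}.Finite → Tt t Q s (e z) ξ a →
          RR D.ord K.ord t Q s ξ (e z)

/-- the section at `ξ` of the subset `X` of `β` -/
noncomputable def sx (t : Ordinal.{u} → Ordinal.{u} → Ordinal.{u}) (β : Ordinal.{u})
    (X : ZFSet.{u}) (ξ : Ordinal.{u}) : ZFSet.{u} := os β {m | (t ξ m).toZFSet ∈ X}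

/-- a counterexample to `Suc`: for some `β` the set `x` is unbounded in `β`, the sections of `X`
are in HOD, but they are not values of a function in HOD at ordinals less than `β` -/
def BadF (t : Ordinal.{u} → Ordinal.{u} → Ordinal.{u}) (κ : Ordinal.{u}) (x X : ZFSet.{u}) :
    Prop := ∃ β < κ, x ⊆ β.toZFSet ∧ (∀ b < β, ∃ a : Ordinal.{u}, b < a ∧ a.toZFSet ∈ x) ∧
  (∀ ξ < β, HOD (sx t β X ξ)) ∧
    ¬ ∃ G, HOD G ∧ Fun G ∧ ∀ ξ < β, ∃ η < β, ZFSet.pair η.toZFSet (sx t β X ξ) ∈ G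

/-- PF. Definability. -/
def T_PF : Prop := ∀ t : Ordinal.{u} → Ordinal.{u} → Ordinal.{u},
  (DO fun w => w 2 = t (w 0) (w 1)) → ∀ κ : Ordinal.{u}, DZ fun v => BadF t κ (v 0) (v 1)

/-- SUA. Counterexamples do not exist. -/
def T_SUA : Prop := ∀ δ : Ordinal.{u}, Extendible δ → ¬ CaseA δ → ∀ K : Cardinal.{u},
  K.IsRegular → δ < K.ord → ∀ t : Ordinal.{u} → Ordinal.{u} → Ordinal.{u},
    (DO fun w => w 2 = t (w 0) (w 1)) → (∀ a b a' b', t a b = t a' b' → a = a' ∧ b = b') →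
    (∀ a < K.ord, ∀ b < K.ord, t a b < K.ord) → ∃ C, Clb K.ord C ∧
      (∀ β ∈ C, β < K.ord → IsSuccLimit β ∧ ∀ a < β, ∀ b < β, t a b < β) ∧
      ∀ x, Sml δ K.ord C x →
        (∀ a : Ordinal.{u}, a.toZFSet ∈ x → {b : Ordinal.{u} | b.toZFSet ∈ x ∧ b < a}.Finite) →
        ∀ X, X ⊆ K.ord.toZFSet → NF.ODp x X → ¬ BadF t K.ord x X

/-- SUB. From sets to sequences. -/
def T_SUB : Prop := ∀ δ : Ordinal.{u}, Extendible δ → ¬ CaseA δ → ∀ K : Cardinal.{u},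
  K.IsRegular → δ < K.ord → ∃ C, Clb K.ord C ∧ Suc δ K.ord C

/-- BPL. The successor cardinal of `β`. -/
def T_BPL : Prop := ∀ (δ : Ordinal.{u}) (K : Cardinal.{u}), K.IsRegular → ℵ₀ < K →
  ∀ C, Clb K.ord C → Suc δ K.ord C → ∃ C', Clb K.ord C' ∧ Bpl δ K.ord C'

end HD.PRP
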