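import Pool.Agent.H97.PRP.Targets
import Pool.Agent.H97.PRK.VDL

/-!
# MP_e37c09_lc: small sets of points of a club, third list: sets of arbitrary order type
-/

open Ordinal Cardinal Order Set
open scoped ZFSet

universe u

namespace HD.PRP

open HD.PRK

/-! ## Statement-level definitions -/

/-- `(x ∩ (a + 1), X ∩ a) ∈ D` for all `a ∈ x`. -/
def CapA (x X D : ZFSet.{u}) : Prop := ∀ a : Ordinal.{u}, a.toZFSet ∈ x →
  ZFSet.pair (x ∩ (succ a).toZFSet) (X ∩ a.toZFSet) ∈ D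

/-- `c ^ ν < K` for all `c < K` and `ν < δ`. -/
def ClK (δ : Ordinal.{u}) (K : Cardinal.{u}) : Prop := ∀ c < K, ∀ ν : Cardinal.{u},
  ν.ord < δ → c ^ ν < K

/-! ## Few splitting points for almost all initial segments -/

/-- FSL. Local definability of the family `Fs`. -/
def T_FSL : Prop := Loc.{u} fun v => (v 1).IsOrdinal ∧ v 0 = Fs (v 1).rank (v 2) (v 3)

/-- LTS. Local definability. -/
def T_LTS : Prop := Loc.{u} fun v => (v 0).IsOrdinal ∧ (v 1).IsOrdinal ∧ (v 3).IsOrdinal ∧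
  PosX (v 0).rank (v 1).rank (fun s => ¬ Few (v 3).rank
    (SpS (v 0).rank (v 1).rank (Fs (v 1).rank (v 2) s)))

/-- SHR. An element of a small ordinal definable set which is unbounded in `α` is not small. -/
def T_SHR : Prop := ∀ D : Cardinal.{u}, D.IsRegular → ℵ₀ < D → ∀ α : Ordinal.{u}, HReg α →
  D.ord ≤ α.card.ord → ∀ Z, OD Z → (∃ ν < D, NF.Sz ν Z) → ∀ B ∈ Z, B ⊆ α.toZFSet →
    (∀ b < α, ∃ c < α, b ≤ c ∧ c.toZFSet ∈ B) → ¬ Few D.ord {a | a.toZFSet ∈ B}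

/-- the transfer to the indices: the least `a` such that `i ≤ y`, where `y` is the `a`-th splitting
point at `κ` and `i < lam` is a splitting point at `ρ` -/
def BB (μ κ ρ lam : Ordinal.{u}) (F : ZFSet.{u}) : Set Ordinal.{u} :=
  {a | ∃ y i, nth (SpS μ κ F) a y ∧ Spl μ ρ F i ∧ i < lam ∧ i ≤ y ∧
    ∀ a' y', nth (SpS μ κ F) a' y' → a' < a → y' < i}

/-- BOD. Definability. -/
def T_BOD : Prop := ∀ (μ κ ρ lam α : Ordinal.{u}) (G s : ZFSet.{u}), OD G →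
  NF.ODp s (os α (BB μ κ ρ lam (Fs κ G s)))

/-- TWS. Few splitting points for almost all `s`. -/
def T_TWS : Prop := ∀ δ : Ordinal.{u}, Extendible δ → ¬ CaseA δ → ∀ K : Cardinal.{u},
  K.IsRegular → δ < K.ord → ∀ μ < δ, ω ≤ μ → ∀ G, OD G → ∃ C, Clb K.ord C ∧
    ∀ s, SmS μ K.ord C s → Few δ (SpS μ K.ord (Fs K.ord G s))

/-! ## The capturing sets -/

/-- ES. The number of the small subsets. -/
def T_ES : Prop := ∀ (D K : Cardinal.{u}), ℵ₀ < D → K.IsRegular → D < K → ClK D.ord K →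
  ∀ μ < D.ord, ∀ c < K.ord, ∃ τ < K.ord, ∃ g : Ordinal.{u} → ZFSet.{u}, ∀ s : ZFSet.{u},
    s ⊆ c.toZFSet → (∃ h : Ordinal.{u} → Ordinal.{u}, ∀ a : Ordinal.{u}, a.toZFSet ∈ s →
      ∃ i < μ, h i = a) → ∃ i < τ, g i = s

/-- `Y` is a possible value at `w`, second version -/
def Po2 (δ μ κ : Ordinal.{u}) (G w Y : ZFSet.{u}) : Prop :=
  ∃ a < κ, IsSuccLimit a ∧ a.toZFSet = (ZFSet.sUnion w : ZFSet.{u}) ∧
    Few δ (SpS μ κ (Fs κ G (w ∩ a.toZFSet))) ∧ Y ⊆ a.toZFSet ∧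
    ∀ n < a, PosX μ κ fun y => Agr (Fs κ G (w ∩ a.toZFSet)) y n {b | b.toZFSet ∈ Y}

/-- the set `w ∩ b` is bounded in `b` -/
def Bnd (w : ZFSet.{u}) (b : Ordinal.{u}) : Prop := ∃ c < b, ∀ b' < b, b'.toZFSet ∈ w → b' ≤ c

/-- the values at the initial segments of `w` are possible values -/
def Val (δ μ κ : Ordinal.{u}) (G w Y : ZFSet.{u}) : Prop :=
  (∃ h : Ordinal.{u} → Ordinal.{u}, ∀ a : Ordinal.{u}, a.toZFSet ∈ w → ∃ i < μ, h i = a) ∧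
  Y ⊆ (ZFSet.sUnion w : ZFSet.{u}) ∧ ∀ b : Ordinal.{u}, b.toZFSet ∈ w → Bnd w b →
    Po2 δ μ κ G (w ∩ (succ b).toZFSet) (Y ∩ b.toZFSet)

/-- the set of the pairs `(w, Y)` such that all values at the initial segments are possible -/
noncomputable def DV2 (δ μ κ : Ordinal.{u}) (G : ZFSet.{u}) : ZFSet.{u} :=
  ZFSet.sep (fun z => ∃ w Y, z = ZFSet.pair w Y ∧ Val δ μ κ G w Y)
    (ZFSet.prod (ZFSet.powerset κ.toZFSet) (ZFSet.powerset κ.toZFSet))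

/-- VDO. Definability. -/
def T_VDO : Prop := ∀ (δ μ κ : Ordinal.{u}) (G : ZFSet.{u}), OD G → OD (DV2 δ μ κ G)

/-- VDT. The sections are small. -/
def T_VDT : Prop := ∀ (D K : Cardinal.{u}), D.IsRegular → D.IsStrongLimit → ℵ₀ < D →
  K.IsRegular → D < K → ∀ μ < D.ord, ∀ G, Thin D.ord (DV2 D.ord μ K.ord G)

/-- VDC. Capturing. -/
def T_VDC : Prop := ∀ δ : Ordinal.{u}, Extendible δ → ¬ CaseA δ → ∀ K : Cardinal.{u},
  K.IsRegular → δ < K.ord → ClK δ K → ∀ μ < δ, ω ≤ μ → ∀ G, OD G → ∃ C, Clb K.ord C ∧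
    ∀ x, SmS μ K.ord C x → ∀ a : Ordinal.{u}, a.toZFSet ∈ x →
      ZFSet.pair (x ∩ (succ a).toZFSet) (os a (sec G x)) ∈ DV2 δ μ K.ord G

/-! ## Capturing subsets of `κ` -/

/-- PC2. Definability. -/
def T_PC2 : Prop := ∀ δ : Ordinal.{u}, DZ fun v => ¬ ∃ D, OD D ∧ Thin δ D ∧ CapA (v 0) (v 1) D

/-- CPB2. The second case. -/
def T_CPB2 : Prop := ∀ δ : Ordinal.{u}, Extendible δ → ¬ CaseA δ → ∀ K : Cardinal.{u},
  K.IsRegular → δ < K.ord → ClK δ K → ∃ C, Clb K.ord C ∧ ∀ x, Sml δ K.ord C x → ∀ X,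
    X ⊆ K.ord.toZFSet → NF.ODp x X → ∃ D, OD D ∧ Thin δ D ∧ CapA x X D

/-- CPA2. The first case. -/
def T_CPA2 : Prop := ∀ δ : Ordinal.{u}, Extendible δ → CaseA δ → ∀ (κ : Ordinal.{u})
  (x : ZFSet.{u}), x ⊆ κ.toZFSet → (∃ τ < δ, ∃ g : Ordinal.{u} → Ordinal.{u},
    ∀ a : Ordinal.{u}, a.toZFSet ∈ x → ∃ i < τ, g i = a) → ∀ X, X ⊆ κ.toZFSet → NF.ODp x X →
      ∃ D, OD D ∧ Thin δ D ∧ CapA x X D

/-- CPH2. One value if `V_ δ` is contained in HOD. -/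
def T_CPH2 : Prop := ∀ δ : Ordinal.{u}, Extendible δ → (∀ y ∈ V_ δ, HOD y) → ∀ (κ : Ordinal.{u})
  (x X D : ZFSet.{u}), x ⊆ κ.toZFSet → (∃ τ < δ, ∃ g : Ordinal.{u} → Ordinal.{u},
    ∀ a : Ordinal.{u}, a.toZFSet ∈ x → ∃ i < τ, g i = a) → OD D → Thin δ D → CapA x X D →
      ∃ E, OD E ∧ Fun E ∧ CapA x X E

end HD.PRP
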